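import Pool.Agent.ZF21.Search

/-!
# MP_a8cd80_co: a lower bound for the frequency of `0` in binary words avoiding abelian fourth powers

Words are over the alphabet `Bool`, `false` being the letter `0` and `true` the letter `1`. If an infinite word
avoids abelian fourth powers, then every factor of length `n` has at least `(21 n - 2352) / 58` letters `0`; hence
the frequency of `0`, if it exists, is at least `21/58 = 0.36206...`. The proof is an exhaustive search
(`Pool/Agent/ZF21/Search.lean`, evaluated by the kernel): from every position of the word one of the factors of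
length at most `113` starting there has frequency of `0` at least `21/58`.
-/

set_option autoImplicit false

namespace Pool.Agent.Results.MP_a8cd80_co.LowerFrequency

open Filter Topology

/-- the factor of length `n` of the infinite word `w` that starts at position `i` -/
def factor (w : ℕ → Bool) (i n : ℕ) : List Bool := (List.range n).map (fun j => w (i + j))

/-- abelian equivalence: each letter occurs the same number of times -/
def AbelianEquiv (x y : List Bool) : Prop := ∀ a : Bool, x.count a = y.count a

/-- `x` is an abelian fourth power -/
def IsAbelianFourthPower (x : List Bool) : Prop :=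
  ∃ x₁ x₂ x₃ x₄ : List Bool, x₁ ≠ [] ∧ AbelianEquiv x₁ x₂ ∧ AbelianEquiv x₁ x₃ ∧ AbelianEquiv x₁ x₄ ∧
    x = x₁ ++ x₂ ++ x₃ ++ x₄

/-- the infinite word `w` avoids abelian fourth powers -/
def Avoids (w : ℕ → Bool) : Prop := ∀ i n : ℕ, ¬ IsAbelianFourthPower (factor w i n)

/-- the frequency of the letter `0` in `w` exists and equals `f` -/
def HasZeroFrequency (w : ℕ → Bool) (f : ℝ) : Prop :=
  Tendsto (fun n : ℕ => ((factor w 0 n).count false : ℝ) / n) atTop (𝓝 f)

theorem length_factor (w : ℕ → Bool) (i n : ℕ) : (factor w i n).length = n := by simp [factor]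

theorem factor_add (w : ℕ → Bool) (i m n : ℕ) : factor w i (m + n) = factor w i m ++ factor w (i + m) n := by
  simp only [factor, List.range_add, List.map_append, List.map_map]
  congr 1
  apply List.map_congr_left
  intro j _
  simp [add_assoc]

theorem count_factor (w : ℕ → Bool) (i n : ℕ) :
    (factor w i n).count false = ZF21.zc (fun j => w (i + j)) n := by
  induction n with
  | zero => rfl
  | succ n ih =>
    rw [factor_add, List.count_append, ih]
    have h : List.count false (factor w (i + n) 1) = if w (i + n) then 0 else 1 := by
      simp only [factor, List.range_one, List.map_cons, List.map_nil, add_zero]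
      generalize w (i + n) = c
      cases c <;> rfl
    rw [h]; rfl

theorem zc_shift (w : ℕ → Bool) (m n : ℕ) :
    ZF21.zc w (m + n) = ZF21.zc w m + ZF21.zc (fun j => w (m + j)) n := by
  induction n with
  | zero => simp [ZF21.zc]
  | succ n ih => rw [← add_assoc]; simp only [ZF21.zc]; rw [ih]; omega

theorem count_true (x : List Bool) : x.count true + x.count false = x.length := by
  induction x with
  | nil => rfl
  | cons a x ih =>
    cases a
    · rw [List.count_cons_of_ne (a := true) (b := false) (by decide), List.count_cons_self, List.length_cons]; omega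
    · rw [List.count_cons_of_ne (a := false) (b := true) (by decide), List.count_cons_self, List.length_cons]; omega

theorem not_pow4 (w : ℕ → Bool) (hw : Avoids w) (s : ℕ) (i p : ℕ) (hp : 0 < p) :
    ¬ ZF21.Pow4 (fun j => w (s + j)) i p := by
  rintro ⟨h1, h2, h3⟩
  set u : ℕ → Bool := fun j => w (s + j) with hu
  have hz : ∀ k, ZF21.zc u (i + (k + 1) * p) = ZF21.zc u (i + k * p) +
      (factor w (s + i + k * p) p).count false := by
    intro k
    have e : i + (k + 1) * p = (i + k * p) + p := by ring
    rw [e, zc_shift, count_factor]
    congr 2
    funext j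
    simp only [hu]
    congr 1; ring
  have hz0 := hz 0
  have hz1 := hz 1
  have hz2 := hz 2
  have hz3 := hz 3
  simp only [zero_add, zero_mul, add_zero, one_mul] at hz0 hz1
  norm_num at hz1 hz2 hz3
  have eqf : ∀ j k, (factor w j p).count false = (factor w k p).count false →
      AbelianEquiv (factor w j p) (factor w k p) := by
    intro j k h a
    have hj := count_true (factor w j p)
    have hk := count_true (factor w k p)
    rw [length_factor] at hj hk
    cases a
    · exact h
    · omega
  refine hw (s + i) (p + p + p + p) ⟨factor w (s + i) p, factor w (s + i + p) p, factor w (s + i + 2 * p) p,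
    factor w (s + i + 3 * p) p, ?_, eqf _ _ (by omega), eqf _ _ (by omega), eqf _ _ (by omega), ?_⟩
  · intro h
    have := congrArg List.length h
    rw [length_factor] at this
    simp at this
    omega
  · rw [factor_add, factor_add, factor_add]
    congr 2
    · congr 1; ring
    · ring

theorem uniform (w : ℕ → Bool) (hw : Avoids w) :
    ∀ n i : ℕ, 21 * n ≤ 58 * (factor w i n).count false + 2352 := by
  intro n
  induction n using Nat.strong_induction_on with
  | _ n ih =>
    intro i
    by_cases hn : n ≤ 112
    · omega
    · obtain ⟨k, hk0, hk1, hk2⟩ := ZF21.exists_dense (fun j => w (i + j)) (fun a p hp => not_pow4 w hw i a p hp)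
      rw [← count_factor] at hk2
      have h := ih (n - k) (by omega) (i + k)
      have e : n = k + (n - k) := by omega
      rw [e, factor_add, List.count_append]
      omega

theorem result (w : ℕ → Bool) (hw : Avoids w) :
    (∀ i n : ℕ, 21 * n ≤ 58 * (factor w i n).count false + 2352) ∧
    (∀ f : ℝ, HasZeroFrequency w f → 21 / 58 ≤ f) := by
  refine ⟨fun i n => uniform w hw n i, fun f hf => ?_⟩
  have h1 : Tendsto (fun n : ℕ => (21 / 58 : ℝ) - (2352 / 58) / n) atTop (𝓝 (21 / 58 - 0)) :=
    tendsto_const_nhds.sub (tendsto_const_div_atTop_nhds_zero_nat _)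
  rw [sub_zero] at h1
  refine le_of_tendsto_of_tendsto h1 hf ?_
  filter_upwards [eventually_gt_atTop 0] with n hn
  have hn' : (0 : ℝ) < n := by exact_mod_cast hn
  have h := uniform w hw n 0
  have h' : (21 : ℝ) * n ≤ 58 * ((factor w 0 n).count false : ℝ) + 2352 := by exact_mod_cast h
  rw [le_div_iff₀ hn', sub_mul, div_mul_cancel₀ _ hn'.ne']
  linarith

end Pool.Agent.Results.MP_a8cd80_co.LowerFrequency
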